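import Mathlib
import Pool.Agent.W544.PG.Defs

/-!
Project PG (helper544): (DER), derivations of a factor.
-/

open Matrix Finset Module
open scoped ComplexOrder

namespace Pool.Agent.W701.PG

open Pool.Agent.W544.PG

section
variable {ι : Type} [Fintype ι] [DecidableEq ι]

theorem mem_com {S : Submodule ℂ (Matrix ι ι ℂ)} {a : Matrix ι ι ℂ} :
    a ∈ com (S : Set (Matrix ι ι ℂ)) ↔ ∀ s ∈ S, a * s = s * a := Iff.rfl

theorem com_star {S : Submodule ℂ (Matrix ι ι ℂ)} (h : IsStar S) : IsStar (com (S : Set (Matrix ι ι ℂ))) := by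
  refine ⟨?_, ?_, ?_⟩
  · rw [mem_com]; intro s _; simp
  · intro a ha b hb
    rw [mem_com] at ha hb ⊢
    intro s hs
    rw [mul_assoc, hb s hs, ← mul_assoc, ha s hs, mul_assoc]
  · intro a ha
    rw [mem_com] at ha ⊢
    intro s hs
    have := ha sᴴ (h.2.2 s hs)
    have h2 := congrArg conjTranspose this
    simpa [conjTranspose_mul] using h2.symm

/-- central elements are scalars -/
theorem central {S : Submodule ℂ (Matrix ι ι ℂ)} (hspan : S_span) (h : IsStar S) (hf : Factor S)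
    {z : Matrix ι ι ℂ} (hz : z ∈ S) (hz' : z ∈ com (S : Set (Matrix ι ι ℂ))) :
    ∃ c : ℂ, z = c • (1 : Matrix ι ι ℂ) := by
  have hT : IsStar (S ⊓ com (S : Set (Matrix ι ι ℂ))) := by
    have h' := com_star h
    refine ⟨⟨h.1, h'.1⟩, fun a ha b hb => ⟨h.2.1 a ha.1 b hb.1, h'.2.1 a ha.2 b hb.2⟩,
      fun a ha => ⟨h.2.2 a ha.1, h'.2.2 a ha.2⟩⟩
  have h1 := hspan ι (S ⊓ com (S : Set (Matrix ι ι ℂ))) hT ⟨hz, hz'⟩
  have h2 : Submodule.span ℂ {e | e ∈ S ⊓ com (S : Set (Matrix ι ι ℂ)) ∧ Proj e}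
      ≤ Submodule.span ℂ {(1 : Matrix ι ι ℂ)} := by
    rw [Submodule.span_le]
    rintro e ⟨⟨he1, he2⟩, he3⟩
    rcases hf e he1 he2 he3 with h0 | h0
    · rw [h0]; exact Submodule.zero_mem _
    · rw [h0]; exact Submodule.mem_span_singleton_self _
  obtain ⟨c, hc⟩ := Submodule.mem_span_singleton.mp (h2 h1)
  exact ⟨c, hc.symm⟩

/-- trace of an idempotent -/
theorem trace_idem (P : Matrix ι ι ℂ) (h : P * P = P) : ∃ k : ℕ, P.trace = k := by
  have h1 : IsIdempotentElem (Matrix.toLin' P) := by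
    unfold IsIdempotentElem
    rw [Module.End.mul_eq_comp, ← Matrix.toLin'_mul, h]
  have h2 := (LinearMap.IsIdempotentElem.isProj_range _ h1).trace
  refine ⟨finrank ℂ (LinearMap.range (Matrix.toLin' P)), ?_⟩
  rw [← h2]
  simp

end

theorem der : S_exp → S_dc → S_span → S_der := by
  intro hexp hdc hspan ι _ _ S B x y p hS hF hBB hBT hBH hBS hp hpn hn4 hx3 hy3 hxt hyt hxB hyB hxc hyS
  obtain ⟨E, E1, E2, E3, E4, E5⟩ := hexp ι S hS
  have hC := com_star hS
  obtain ⟨E', F1, F2, F3, F4, F5⟩ := hexp ι (com (S : Set (Matrix ι ι ℂ))) hC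
  set C := com (S : Set (Matrix ι ι ℂ)) with hCdef
  set n := Fintype.card ι with hn
  have hn0 : 0 < n := lt_of_le_of_lt (Nat.zero_le _) hpn
  have hnC : (n : ℂ) ≠ 0 := by exact_mod_cast hn0.ne'
  have tr1 : (1 : Matrix ι ι ℂ).trace = n := by rw [Matrix.trace_one]
  -- (1)
  have Eb : ∀ b ∈ C, E b = (b.trace / n) • (1 : Matrix ι ι ℂ) := by
    intro b hb
    have hc : E b ∈ com (S : Set (Matrix ι ι ℂ)) := by
      rw [mem_com]
      intro s hs
      rw [← E5 s hs, ← E4 s hs, (mem_com.mp hb) s hs]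
    obtain ⟨c, hc'⟩ := central hspan hS hF (E1 b) hc
    have h1 := E3 b 1 hS.1
    rw [mul_one, mul_one, hc', Matrix.trace_smul, tr1, smul_eq_mul] at h1
    rw [hc', ← h1, mul_div_cancel_right₀ _ hnC]
  have Ea : ∀ a ∈ S, E' a = (a.trace / n) • (1 : Matrix ι ι ℂ) := by
    intro a ha
    have hc : E' a ∈ com (C : Set (Matrix ι ι ℂ)) := by
      rw [mem_com]
      intro s hs
      rw [← F5 s hs, ← F4 s hs, (mem_com.mp hs) a ha]
    have hc2 : E' a ∈ S := hdc ι S hS _ hc
    obtain ⟨c, hc'⟩ := central hspan hS hF hc2 (F1 a)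
    have h1 := F3 a 1 hC.1
    rw [mul_one, mul_one, hc', Matrix.trace_smul, tr1, smul_eq_mul] at h1
    rw [hc', ← h1, mul_div_cancel_right₀ _ hnC]
  have Tr : ∀ a ∈ S, ∀ b ∈ C, (b * a).trace = b.trace * a.trace / n := by
    intro a ha b hb
    rw [← E3 b a ha, Eb b hb, smul_mul_assoc, one_mul, Matrix.trace_smul, smul_eq_mul]
    ring
  -- elements in both
  have both0 : ∀ z ∈ S, z ∈ C → z.trace = 0 → z = 0 := by
    intro z hz hz' ht
    obtain ⟨c, hc⟩ := central hspan hS hF hz hz'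
    rw [hc, Matrix.trace_smul, tr1, smul_eq_mul] at ht
    rcases mul_eq_zero.mp ht with h | h
    · rw [hc, h, zero_smul]
    · exact absurd h hnC
  -- the anti-involution
  have tauM : ∀ a b : Matrix ι ι ℂ, B * (a * b)ᵀ * B = (B * bᵀ * B) * (B * aᵀ * B) := by
    intro a b
    rw [transpose_mul]
    calc B * (bᵀ * aᵀ) * B = B * bᵀ * (1 * (aᵀ * B)) := by noncomm_ring
      _ = B * bᵀ * ((B * B) * (aᵀ * B)) := by rw [hBB]
      _ = _ := by noncomm_ring
  have tauT : ∀ a : Matrix ι ι ℂ, (B * aᵀ * B).trace = a.trace := by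
    intro a
    rw [Matrix.trace_mul_comm, ← mul_assoc, hBB, one_mul, Matrix.trace_transpose]
  have tautau : ∀ a : Matrix ι ι ℂ, B * (B * aᵀ * B)ᵀ * B = a := by
    intro a
    rw [transpose_mul, transpose_mul, transpose_transpose, hBT]
    calc B * (B * (a * B)) * B = (B * B) * a * (B * B) := by noncomm_ring
      _ = a := by rw [hBB]; simp
  have tauC : ∀ c ∈ C, B * cᵀ * B ∈ C := by
    intro c hc
    rw [mem_com] at hc ⊢
    intro s hs
    have h1 := hc _ (hBS s hs)
    have h2 : B * (c * (B * sᵀ * B))ᵀ * B = B * ((B * sᵀ * B) * c)ᵀ * B := by rw [h1]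
    rw [tauM c (B * sᵀ * B), tautau, tauM (B * sᵀ * B) c, tautau] at h2
    exact h2.symm
  -- (2)
  obtain ⟨M, hM⟩ : ∃ M, M = E y := ⟨_, rfl⟩
  obtain ⟨N, hN⟩ : ∃ N, N = y - M := ⟨_, rfl⟩
  have hyMN : y = M + N := by rw [hN]; abel
  have hMS : M ∈ S := by rw [hM]; exact E1 y
  have hNC : N ∈ C := by
    rw [mem_com]
    intro s hs
    have h1 := E2 _ (hyS s hs)
    rw [map_sub, E5 s hs, E4 s hs, ← hM] at h1
    rw [hN, sub_mul, mul_sub]
    have h2 : y * s - s * y = M * s - s * M := h1.symm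
    have h3 : (y * s - M * s) - (s * y - s * M) = (y * s - s * y) - (M * s - s * M) := by abel
    rw [h2, sub_self] at h3
    exact sub_eq_zero.mp h3
  have hMNc : N * M = M * N := (mem_com.mp hNC) M hMS
  have hyt0 : y.trace = 0 := by
    have h1 := tauT y
    rw [hyB, Matrix.trace_neg] at h1
    have h2 : 2 * y.trace = 0 := by linear_combination -h1
    exact (mul_eq_zero.mp h2).resolve_left two_ne_zero
  have hxt0 : x.trace = 0 := by
    have h1 := tauT x
    rw [hxB, Matrix.trace_neg] at h1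
    have h2 : 2 * x.trace = 0 := by linear_combination -h1
    exact (mul_eq_zero.mp h2).resolve_left two_ne_zero
  have hMt : M.trace = 0 := by
    have h1 := E3 y 1 hS.1
    rw [mul_one, mul_one, ← hM] at h1
    rw [h1, hyt0]
  have hNt : N.trace = 0 := by rw [hN, Matrix.trace_sub, hyt0, hMt, sub_zero]
  have hMtau : B * Mᵀ * B = -M := by
    have h1 : B * Mᵀ * B + M = -(B * Nᵀ * B + N) := by
      have h2 := hyB
      rw [hyMN, transpose_add, mul_add, add_mul] at h2
      apply eq_neg_of_add_eq_zero_left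
      have h3 : B * Mᵀ * B + M + (B * Nᵀ * B + N) = (B * Mᵀ * B + B * Nᵀ * B) + (M + N) := by abel
      rw [h3, h2]; abel
    have h3 : B * Mᵀ * B + M ∈ S := S.add_mem (hBS M hMS) hMS
    have h4 : B * Mᵀ * B + M ∈ C := by
      rw [h1]; exact C.neg_mem (C.add_mem (tauC N hNC) hNC)
    have h5 : (B * Mᵀ * B + M).trace = 0 := by
      rw [Matrix.trace_add, tauT, hMt, add_zero]
    have := both0 _ h3 h4 h5
    exact eq_neg_of_add_eq_zero_left this
  have hNtau : B * Nᵀ * B = -N := by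
    have h2 := hyB
    rw [hyMN, transpose_add, mul_add, add_mul, hMtau] at h2
    have : B * Nᵀ * B = -(M + N) + M := by rw [← h2]; abel
    rw [this]; abel
  have hM2tau : B * (M * M)ᵀ * B = M * M := by rw [tauM, hMtau]; simp
  have hN2tau : B * (N * N)ᵀ * B = N * N := by rw [tauM, hNtau]; simp
  have hM3t : (M * M * M).trace = 0 := by
    have h1 := tauT (M * M * M)
    rw [tauM, hM2tau, hMtau] at h1
    have h3 : -M * (M * M) = -(M * M * M) := by noncomm_ring
    rw [h3, Matrix.trace_neg] at h1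
    have h2 : 2 * (M * M * M).trace = 0 := by linear_combination -h1
    exact (mul_eq_zero.mp h2).resolve_left two_ne_zero
  have hN3t : (N * N * N).trace = 0 := by
    have h1 := tauT (N * N * N)
    rw [tauM, hN2tau, hNtau] at h1
    have h3 : -N * (N * N) = -(N * N * N) := by noncomm_ring
    rw [h3, Matrix.trace_neg] at h1
    have h2 : 2 * (N * N * N).trace = 0 := by linear_combination -h1
    exact (mul_eq_zero.mp h2).resolve_left two_ne_zero
  -- (3)
  obtain ⟨s, hs⟩ : ∃ s : ℂ, s = (M * M).trace / n := ⟨_, rfl⟩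
  obtain ⟨t, ht⟩ : ∃ t : ℂ, t = (N * N).trace / n := ⟨_, rfl⟩
  have hM2S : M * M ∈ S := hS.2.1 _ hMS _ hMS
  have hM3S : M * M * M ∈ S := hS.2.1 _ hM2S _ hMS
  have hN2C : N * N ∈ C := hC.2.1 _ hNC _ hNC
  have hN3C : N * N * N ∈ C := hC.2.1 _ hN2C _ hNC
  have cube : M * M * M + (3 : ℂ) • (M * M * N) + (3 : ℂ) • (M * (N * N)) + N * N * N = M + N := by
    have h1 := hy3
    rw [hyMN] at h1
    rw [← h1]
    have e1 : M * N * M = M * M * N := by rw [mul_assoc, hMNc, mul_assoc]
    have e2 : N * M * M = M * M * N := by rw [hMNc, mul_assoc, hMNc, mul_assoc]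
    have e3 : M * N * N = M * (N * N) := mul_assoc _ _ _
    have e4 : N * M * N = M * (N * N) := by rw [hMNc, mul_assoc]
    have e5 : N * N * M = M * (N * N) := by rw [mul_assoc, hMNc, ← mul_assoc, hMNc, mul_assoc]
    have e6 : (M + N) * (M + N) * (M + N) = M * M * M + (M * M * N + M * N * M + N * M * M)
      + (M * N * N + N * M * N + N * N * M) + N * N * N := by noncomm_ring
    rw [e6, e1, e2, e3, e4, e5]
    module
  have EN : E N = 0 := by rw [Eb N hNC, hNt]; simp
  have EN2 : E (N * N) = t • (1 : Matrix ι ι ℂ) := by rw [Eb _ hN2C, ht]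
  have EN3 : E (N * N * N) = 0 := by rw [Eb _ hN3C, hN3t]; simp
  have EM : E' M = 0 := by rw [Ea M hMS, hMt]; simp
  have EM2 : E' (M * M) = s • (1 : Matrix ι ι ℂ) := by rw [Ea _ hM2S, hs]
  have EM3 : E' (M * M * M) = 0 := by rw [Ea _ hM3S, hM3t]; simp
  have eqM : M * M * M + (3 * t) • M = M := by
    have h1 := congrArg E cube
    rw [map_add, map_add, map_add, map_add, map_smul, map_smul, E4 _ hM2S N, E4 _ hMS (N * N), EN, EN2, EN3,
      E2 _ hM3S, E2 _ hMS] at h1
    simp only [mul_zero, smul_zero, add_zero, mul_smul_comm, mul_one, smul_smul] at h1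
    exact h1
  have eqN : N * N * N + (3 * s) • N = N := by
    have h1 := congrArg E' cube
    rw [map_add, map_add, map_add, map_add, map_smul, map_smul, F5 _ hNC (M * M), F5 _ hN2C M, EM, EM2, EM3,
      F2 _ hN3C, F2 _ hNC] at h1
    simp only [zero_mul, smul_zero, add_zero, zero_add, smul_mul_assoc, one_mul, smul_smul] at h1
    rw [add_comm]; exact h1
  have cross : M * (N * N - t • 1) + (M * M - s • 1) * N = 0 := by
    have h1 : (3 : ℂ) • (M * (N * N - t • (1 : Matrix ι ι ℂ)) + (M * M - s • (1 : Matrix ι ι ℂ)) * N) = 0 := by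
      have e1 : M * (N * N - t • (1 : Matrix ι ι ℂ)) = M * (N * N) - t • M := by
        rw [mul_sub, mul_smul_comm, mul_one]
      have e2 : (M * M - s • (1 : Matrix ι ι ℂ)) * N = M * M * N - s • N := by
        rw [sub_mul, smul_mul_assoc, one_mul]
      rw [e1, e2]
      have h2 : (3 : ℂ) • (M * (N * N) - t • M + (M * M * N - s • N))
          = (M * M * M + (3 : ℂ) • (M * M * N) + (3 : ℂ) • (M * (N * N)) + N * N * N)
            - (M * M * M + (3 * t) • M) - (N * N * N + (3 * s) • N) := by module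
      rw [h2, cube, eqM, eqN]
      abel
    exact (smul_eq_zero.mp h1).resolve_left (by norm_num)
  -- (4)
  have nz : ∀ a : Matrix ι ι ℂ, a ≠ 0 → (aᴴ * a).trace ≠ 0 := by
    intro a ha h
    exact ha (trace_conjTranspose_mul_self_eq_zero_iff.mp h)
  by_cases hM0 : M = 0
  · rw [hyMN, hM0, zero_add]; exact hNC
  exfalso
  by_cases hN0 : N = 0
  · -- `y ∈ S`
    have hyM : y = M := by rw [hyMN, hN0, add_zero]
    have hyS' : y ∈ S := by rw [hyM]; exact hMS
    have idem : ∀ z : Matrix ι ι ℂ, z * z * z = z → ((1 / 2 : ℂ) • (z * z + z)) * ((1 / 2 : ℂ) • (z * z + z))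
        = (1 / 2 : ℂ) • (z * z + z) := by
      intro z hz
      rw [smul_mul_smul_comm]
      have e : (z * z + z) * (z * z + z) = (2 : ℂ) • (z * z + z) := by
        have e1 : (z * z + z) * (z * z + z) = (z * z * z) * z + (z * z * z) + (z * z * z) + z * z := by
          noncomm_ring
        rw [e1, hz]
        module
      rw [e, smul_smul]
      norm_num
    obtain ⟨P, hP⟩ : ∃ P, P = (1 / 2 : ℂ) • (x * x + x) := ⟨_, rfl⟩
    obtain ⟨R, hR⟩ : ∃ R, R = (1 / 2 : ℂ) • (y * y + y) := ⟨_, rfl⟩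
    have hPC : P ∈ C := by
      rw [hP]; exact C.smul_mem _ (C.add_mem (hC.2.1 _ hxc _ hxc) hxc)
    have hRS : R ∈ S := by
      rw [hR]; exact S.smul_mem _ (S.add_mem (hS.2.1 _ hyS' _ hyS') hyS')
    have hPP : P * P = P := by rw [hP]; exact idem x hx3
    have hRR : R * R = R := by rw [hR]; exact idem y hy3
    have hPt : P.trace = p := by
      rw [hP, Matrix.trace_smul, Matrix.trace_add, hxt, hxt0, smul_eq_mul]; ring
    have hRt : R.trace = p := by
      rw [hR, Matrix.trace_smul, Matrix.trace_add, hyt, hyt0, smul_eq_mul]; ring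
    have hPR : P * R = R * P := (mem_com.mp hPC) R hRS
    have hid : (P * R) * (P * R) = P * R := by
      calc (P * R) * (P * R) = P * (R * P) * R := by noncomm_ring
        _ = P * (P * R) * R := by rw [← hPR]
        _ = (P * P) * (R * R) := by noncomm_ring
        _ = P * R := by rw [hPP, hRR]
    obtain ⟨k, hk⟩ := trace_idem _ hid
    have h1 := Tr R hRS P hPC
    rw [hk, hPt, hRt] at h1
    have h2 : (k : ℂ) * n = p * p := by rw [h1]; field_simp
    have h3 : k * n = p * p := by exact_mod_cast h2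
    have hk0 : k ≠ 0 := by
      rintro rfl
      rw [zero_mul] at h3
      have : 0 < p * p := Nat.mul_pos hp hp
      omega
    have h4 : n ≤ k * n := Nat.le_mul_of_pos_left n (Nat.pos_of_ne_zero hk0)
    have h5 : p ^ 2 = p * p := sq p
    omega
  -- both nonzero
  have main : ∀ a ∈ S, ((a * M).trace / n) • (N * N - t • 1) + ((a * (M * M - s • 1)).trace / n) • N = 0 := by
    intro a ha
    have h1 : E' (a * (M * (N * N - t • 1) + (M * M - s • 1) * N)) = 0 := by rw [cross, mul_zero, map_zero]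
    have hb1 : N * N - t • (1 : Matrix ι ι ℂ) ∈ C := C.sub_mem hN2C (C.smul_mem _ hC.1)
    have ha2 : M * M - s • (1 : Matrix ι ι ℂ) ∈ S := S.sub_mem hM2S (S.smul_mem _ hS.1)
    rw [mul_add, ← mul_assoc, ← mul_assoc, map_add, F5 _ hb1, F5 _ hNC, Ea _ (hS.2.1 _ ha _ hMS),
      Ea _ (hS.2.1 _ ha _ ha2), smul_mul_assoc, smul_mul_assoc, one_mul, one_mul] at h1
    exact h1
  obtain ⟨A2, hA2⟩ : ∃ A2, A2 = M * M - s • (1 : Matrix ι ι ℂ) := ⟨_, rfl⟩
  obtain ⟨B1, hB1⟩ : ∃ B1, B1 = N * N - t • (1 : Matrix ι ι ℂ) := ⟨_, rfl⟩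
  rw [← hA2, ← hB1] at main
  obtain ⟨κ, hκ⟩ : ∃ κ : ℂ, κ = (Mᴴ * A2).trace / (Mᴴ * M).trace := ⟨_, rfl⟩
  have hA2S : A2 ∈ S := by rw [hA2]; exact S.sub_mem hM2S (S.smul_mem _ hS.1)
  have hMM := nz M hM0
  have hB1e : B1 = (-κ) • N := by
    have h1 := main Mᴴ (hS.2.2 M hMS)
    have h2 : ((Mᴴ * M).trace / n) • B1 = (-((Mᴴ * A2).trace / n)) • N := by
      rw [neg_smul]; exact eq_neg_of_add_eq_zero_left h1
    have h3 : ((Mᴴ * M).trace / n) ≠ 0 := div_ne_zero hMM hnC
    have h4 : B1 = ((Mᴴ * M).trace / n)⁻¹ • (((Mᴴ * M).trace / n) • B1) := by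
      rw [smul_smul, inv_mul_cancel₀ h3, one_smul]
    rw [h4, h2, smul_smul, hκ]
    congr 1
    field_simp
  have hA2e : A2 = κ • M := by
    have h0 : ∀ a ∈ S, (a * (A2 - κ • M)).trace = 0 := by
      intro a ha
      have h1 := main a ha
      rw [hB1e, smul_smul, ← add_smul] at h1
      have h2 := (smul_eq_zero.mp h1).resolve_right hN0
      rw [mul_sub, mul_smul_comm, Matrix.trace_sub, Matrix.trace_smul, smul_eq_mul]
      field_simp at h2
      linear_combination h2
    by_contra hne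
    have hne' : A2 - κ • M ≠ 0 := sub_ne_zero.mpr hne
    exact nz _ hne' (h0 _ (hS.2.2 _ (S.sub_mem hA2S (S.smul_mem _ hMS))))
  have hκ0 : κ = 0 := by
    have h1 : B * A2ᵀ * B = A2 := by
      rw [hA2, transpose_sub, transpose_smul, transpose_one, mul_sub, sub_mul, hM2tau, mul_smul_comm, mul_one,
        smul_mul_assoc, hBB]
    rw [hA2e, transpose_smul, mul_smul_comm, smul_mul_assoc, hMtau] at h1
    have h2 : (2 * κ) • M = 0 := by
      have : (2 * κ) • M = κ • M - κ • (-M) := by module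
      rw [this, h1, sub_self]
    have h3 := (smul_eq_zero.mp h2).resolve_right hM0
    exact (mul_eq_zero.mp h3).resolve_left two_ne_zero
  rw [hκ0] at hA2e hB1e
  have hM2 : M * M = s • (1 : Matrix ι ι ℂ) := by
    rw [hA2, zero_smul] at hA2e; exact sub_eq_zero.mp hA2e
  have hN2 : N * N = t • (1 : Matrix ι ι ℂ) := by
    rw [hB1, neg_zero, zero_smul] at hB1e; exact sub_eq_zero.mp hB1e
  have q1 : s + 3 * t - 1 = 0 := by
    have h1 := eqM
    rw [hM2, smul_mul_assoc, one_mul] at h1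
    have h2 : (s + 3 * t - 1) • M = 0 := by
      have : (s + 3 * t - 1) • M = (s • M + (3 * t) • M) - M := by module
      rw [this, h1, sub_self]
    exact (smul_eq_zero.mp h2).resolve_right hM0
  have q2 : t + 3 * s - 1 = 0 := by
    have h1 := eqN
    rw [hN2, smul_mul_assoc, one_mul] at h1
    have h2 : (t + 3 * s - 1) • N = 0 := by
      have : (t + 3 * s - 1) • N = (t • N + (3 * s) • N) - N := by module
      rw [this, h1, sub_self]
    exact (smul_eq_zero.mp h2).resolve_right hN0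
  have q3 : (y * y).trace = n * s + n * t := by
    have e1 : y * y = M * M + N * N + (2 : ℂ) • (N * M) := by
      rw [hyMN]
      have : (M + N) * (M + N) = M * M + N * N + (M * N + N * M) := by noncomm_ring
      rw [this, ← hMNc]
      module
    rw [e1, Matrix.trace_add, Matrix.trace_add, Matrix.trace_smul, Tr M hMS N hNC, hMt, hNt, hs, ht]
    field_simp
    simp
  rw [hyt] at q3
  have q4 : (n : ℂ) = 4 * p := by
    have h1 : s = 1 / 4 := by linear_combination (-1 / 8) * q1 + (3 / 8) * q2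
    have h2 : t = 1 / 4 := by linear_combination (3 / 8) * q1 + (-1 / 8) * q2
    rw [h1, h2] at q3
    linear_combination -2 * q3
  exact hn4 (by exact_mod_cast q4)

end Pool.Agent.W701.PG
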